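import Pool.Agent.helper13.UN.Spec

/-! # Project UN (MP_cf4097_nt), row PRO: basic facts on norms -/

set_option autoImplicit false

namespace Pool.Agent.UN

open NumberField

theorem PRO_nm {K : Type} [Field K] [NumberField K] (x : 𝓞 K) :
    Nm (Ideal.span {x}) = ((|Algebra.norm ℚ (x : K)| : ℚ) : ℝ) := by
  unfold Nm
  rw [Ideal.absNorm_span_singleton]
  have h1 : (Algebra.norm ℚ (x : K)) = ((Algebra.norm ℤ x : ℤ) : ℚ) := by
    rw [Algebra.coe_norm_int]
  rw [h1, ← Int.cast_abs, Int.abs_eq_natAbs, Int.cast_natCast, Rat.cast_natCast]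

theorem PRO : PRO_stmt := by
  intro K _ _
  have hne : ∀ a : Ideal (𝓞 K), a ≠ ⊥ → 1 ≤ Nm a := by
    intro a ha
    unfold Nm
    have h1 : Ideal.absNorm a ≠ 0 := fun h0 => ha (Ideal.absNorm_eq_zero_iff.1 h0)
    exact_mod_cast Nat.one_le_iff_ne_zero.2 h1
  refine ⟨Module.finrank_pos, InfinitePlace.sum_mult_eq, ?_, ?_, ?_, hne, ?_⟩
  · unfold Dc
    have h1 : NumberField.discr K ≠ 0 := NumberField.discr_ne_zero K
    have h2 : 1 ≤ |NumberField.discr K| := Int.one_le_abs h1
    exact_mod_cast h2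
  · intro x hx
    have hx' : (x : K) ≠ 0 := by
      intro h0
      apply hx
      exact RingOfIntegers.coe_injective (h0.trans (map_zero (algebraMap (𝓞 K) K)).symm)
    have hpos : ∀ w : InfinitePlace K, 0 < w (x : K) := fun w => InfinitePlace.pos_iff.2 hx'
    have hspan : Ideal.span {x} ≠ (⊥ : Ideal (𝓞 K)) := by
      rw [Ne, Ideal.span_singleton_eq_bot]
      exact hx
    refine ⟨hne _ hspan, hpos, ?_⟩
    rw [PRO_nm, ← InfinitePlace.prod_eq_abs_norm, Real.log_prod]
    · refine Finset.sum_congr rfl fun w _ => ?_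
      rw [Real.log_pow]
    · intro w _
      exact pow_ne_zero _ (hpos w).ne'
  · intro a b
    unfold Nm
    rw [map_mul, Nat.cast_mul]
  · intro a b hab ha
    unfold Nm
    have h1 : Ideal.absNorm a ≠ 0 := fun h0 => ha (Ideal.absNorm_eq_zero_iff.1 h0)
    have h2 := Nat.le_of_dvd (Nat.pos_of_ne_zero h1) (Ideal.absNorm_dvd_absNorm_of_le hab)
    exact_mod_cast h2

end Pool.Agent.UN
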